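import Pool.Agent.Helper59.MB.Goals4

/-! # MB-SLW (MP_49a1ce_an): sliding windows. -/

set_option autoImplicit false

open MeasureTheory Filter Topology Finset

namespace Pool.Agent.Helper48.MB

open Pool.Agent.Helper59.MB

/-- linear functions are below exponential ones. -/
lemma lin_le_exp (c : ℝ) (hc : 0 < c) : ∃ L₀ : ℕ, ∀ L ≥ L₀, (L : ℝ) ≤ 2 ^ (c * L) := by
  have hr0 : (0 : ℝ) < 2 ^ (-c) := Real.rpow_pos_of_pos (by norm_num) _
  have hr1 : (2 : ℝ) ^ (-c) < 1 := by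
    apply Real.rpow_lt_one_of_one_lt_of_neg (by norm_num) (by linarith)
  have h := tendsto_self_mul_const_pow_of_abs_lt_one (r := (2 : ℝ) ^ (-c))
    (by rw [abs_of_pos hr0]; exact hr1)
  have h1 := h.eventually (gt_mem_nhds (zero_lt_one' ℝ))
  obtain ⟨L₀, hL₀⟩ := eventually_atTop.mp h1
  refine ⟨L₀, fun L hL => ?_⟩
  have h2 := (hL₀ L hL).le
  have h3 : (2 : ℝ) ^ (c * L) = ((2 : ℝ) ^ (-c))⁻¹ ^ L := by
    rw [← Real.rpow_neg (by norm_num), neg_neg, Real.rpow_mul (by norm_num), Real.rpow_natCast]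
  rw [h3, inv_pow]
  have h4 : 0 < ((2 : ℝ) ^ (-c)) ^ L := pow_pos hr0 L
  have h5 := (le_div_iff₀ h4).mpr h2
  rwa [one_div] at h5

/-- the word of length `L` at the place `t` of the concatenation. -/
def slide (L t : ℕ) (β γ : Fin L → ℤ) : Fin L → ℤ := fun i =>
  if h : t + i < L then β ⟨t + i, h⟩ else
    if h' : t + i - L < L then γ ⟨t + i - L, h'⟩ else 0

lemma slide_eq (u : ℕ → ℤ) (L n : ℕ) (hL : 0 < L) :
    (fun i : Fin L => u (n + i)) = slide L (n % L) (wd u L (n / L)) (wd u L (n / L + 1)) := by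
  funext i
  have h1 := Nat.div_add_mod n L
  have h2 := Nat.mod_lt n hL
  have h3 := i.2
  unfold slide wd
  split_ifs with h h'
  · congr 1
    show n + i = L * (n / L) + (n % L + i)
    omega
  · congr 1
    show n + i = L * (n / L + 1) + (n % L + i - L)
    rw [Nat.mul_add, mul_one]
    omega
  · exfalso
    omega

theorem t_SLW (hENT : S_ENT) : S_SLW := by
  intro u hu hdet ε hε
  classical
  obtain ⟨L₁, hL₁⟩ := hENT u hu hdet (ε / 4) (by linarith)
  obtain ⟨L₂, hL₂⟩ := lin_le_exp (ε / 2) (by linarith)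
  refine ⟨max (max L₁ L₂) 1, fun L hL => ?_⟩
  have hLa : L₁ ≤ L := le_trans (le_trans (le_max_left _ _) (le_max_left _ _)) hL
  have hLb : L₂ ≤ L := le_trans (le_trans (le_max_right _ _) (le_max_left _ _)) hL
  have hL0 : 0 < L := lt_of_lt_of_le one_pos (le_trans (le_max_right _ _) hL)
  obtain ⟨U', hU', N₁, hN₁⟩ := hL₁ L hLa
  set V := U'.filter (fun v => ∀ i, |v i| ≤ 1) with hV
  set U : Finset (Fin L → ℤ) :=
    ((Finset.range L) ×ˢ (V ×ˢ V)).image (fun p => slide L p.1 p.2.1 p.2.2) with hU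
  have hVc : (V.card : ℝ) ≤ 2 ^ (ε / 4 * L) :=
    le_trans (by exact_mod_cast Finset.card_filter_le _ _) hU'
  refine ⟨U, ?_, ?_, max N₁ (L + 2), ?_⟩
  · have h1 : (U.card : ℝ) ≤ L * (V.card * V.card) := by
      have : U.card ≤ L * (V.card * V.card) := by
        refine le_trans Finset.card_image_le ?_
        rw [Finset.card_product, Finset.card_product, Finset.card_range]
      exact_mod_cast this
    have h2 : (L : ℝ) ≤ 2 ^ (ε / 2 * L) := hL₂ L hLb
    have h3 : (2 : ℝ) ^ (ε * L) = 2 ^ (ε / 2 * L) * (2 ^ (ε / 4 * L) * 2 ^ (ε / 4 * L)) := by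
      rw [← Real.rpow_add (by norm_num), ← Real.rpow_add (by norm_num)]
      congr 1
      ring
    rw [h3]
    refine le_trans h1 ?_
    have hp : (0 : ℝ) ≤ 2 ^ (ε / 4 * L) := (Real.rpow_pos_of_pos (by norm_num) _).le
    have hq : (0 : ℝ) ≤ 2 ^ (ε / 2 * L) := (Real.rpow_pos_of_pos (by norm_num) _).le
    have h4 : (V.card : ℝ) * V.card ≤ 2 ^ (ε / 4 * L) * 2 ^ (ε / 4 * L) :=
      mul_le_mul hVc hVc (Nat.cast_nonneg _) hp
    exact mul_le_mul h2 h4 (by positivity) hq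
  · intro v hv i
    rw [hU, Finset.mem_image] at hv
    obtain ⟨⟨t, β, γ⟩, hp, rfl⟩ := hv
    rw [Finset.mem_product, Finset.mem_product] at hp
    obtain ⟨_, hβ, hγ⟩ := hp
    have hβ' := (Finset.mem_filter.mp hβ).2
    have hγ' := (Finset.mem_filter.mp hγ).2
    show |slide L t β γ i| ≤ 1
    unfold slide
    split_ifs
    · exact hβ' _
    · exact hγ' _
    · simp
  · intro N hN
    have hNa : N₁ ≤ N := le_trans (le_max_left _ _) hN
    have hNb : L + 2 ≤ N := le_trans (le_max_right _ _) hN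
    have hwd : ∀ q, wd u L q ∈ U' → wd u L q ∈ V := fun q hq =>
      Finset.mem_filter.mpr ⟨hq, fun i => hu _⟩
    have hsub : {n : ℕ | n ∈ Icc 1 N ∧ (fun i : Fin L => u (n + i)) ∉ U} ⊆
        {n : ℕ | n < N + 1 ∧ wd u L (n / L) ∉ U'} ∪
        {n : ℕ | n < N + 1 ∧ wd u L ((n + L) / L) ∉ U'} := by
      rintro n ⟨hn, hbad⟩
      rw [Finset.mem_Icc] at hn
      by_contra hcon
      rw [Set.mem_union, not_or] at hcon
      obtain ⟨c1, c2⟩ := hcon
      have d1 : wd u L (n / L) ∈ U' := by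
        by_contra h
        exact c1 ⟨by omega, h⟩
      have d2 : wd u L (n / L + 1) ∈ U' := by
        by_contra h
        refine c2 ⟨by omega, ?_⟩
        rw [Nat.add_div_right _ hL0]
        exact h
      apply hbad
      rw [slide_eq u L n hL0, hU, Finset.mem_image]
      refine ⟨(n % L, wd u L (n / L), wd u L (n / L + 1)), ?_, rfl⟩
      rw [Finset.mem_product, Finset.mem_product, Finset.mem_range]
      exact ⟨Nat.mod_lt n hL0, hwd _ d1, hwd _ d2⟩
    have hfin : ∀ M : ℕ, ({n : ℕ | n < M ∧ wd u L (n / L) ∉ U'}).Finite := fun M =>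
      (Set.finite_lt_nat M).subset fun n hn => hn.1
    have hfin2 : ({n : ℕ | n < N + 1 ∧ wd u L ((n + L) / L) ∉ U'}).Finite :=
      (Set.finite_lt_nat (N + 1)).subset fun n hn => hn.1
    have e1 : Set.ncard {n : ℕ | n ∈ Icc 1 N ∧ (fun i : Fin L => u (n + i)) ∉ U} ≤
        Set.ncard {n : ℕ | n < N + 1 ∧ wd u L (n / L) ∉ U'} +
        Set.ncard {n : ℕ | n < N + 1 ∧ wd u L ((n + L) / L) ∉ U'} :=
      le_trans (Set.ncard_le_ncard hsub ((hfin _).union hfin2)) (Set.ncard_union_le _ _)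
    have e2 : Set.ncard {n : ℕ | n < N + 1 ∧ wd u L ((n + L) / L) ∉ U'} ≤
        Set.ncard {n : ℕ | n < N + 1 + L ∧ wd u L (n / L) ∉ U'} := by
      refine Set.ncard_le_ncard_of_injOn (fun n => n + L) ?_ ?_ (hfin _)
      · rintro n ⟨h1, h2⟩
        exact ⟨by show n + L < N + 1 + L; omega, h2⟩
      · intro n _ m _ h
        exact Nat.add_right_cancel h
    have e3 := hN₁ (N + 1) (by omega)
    have e4 := hN₁ (N + 1 + L) (by omega)
    have e5 : ((Set.ncard {n : ℕ | n ∈ Icc 1 N ∧ (fun i : Fin L => u (n + i)) ∉ U} : ℕ) : ℝ) ≤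
        ε / 4 * ((N + 1 : ℕ) : ℝ) + ε / 4 * ((N + 1 + L : ℕ) : ℝ) := by
      have e7 := Nat.cast_le (α := ℝ).mpr (e1.trans (Nat.add_le_add_left e2 _))
      rw [Nat.cast_add] at e7
      linarith
    refine le_trans e5 ?_
    have e6 : ((L + 2 : ℕ) : ℝ) ≤ N := by exact_mod_cast hNb
    push_cast at e6 ⊢
    nlinarith [Nat.cast_nonneg (α := ℝ) N, Nat.cast_nonneg (α := ℝ) L]

end Pool.Agent.Helper48.MB
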