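import Pool.Agent.Helper59.MB.Goals1

/-! # MB-SUM (MP_49a1ce_an): the main estimate. -/

set_option autoImplicit false

open MeasureTheory Filter Topology Finset

namespace Pool.Agent.Helper48.MB

open Pool.Agent.Helper59.MB

/-- regrouping a sum over `[1, N]` by the blocks of length `R` shifted by `M`. -/
lemma regroup (M R N : ℕ) (_hR : 0 < R) (f : ℕ → ℝ) :
    ∑ n ∈ Icc 1 N, f n = ∑ q ∈ range ((M + N) / R + 1),
      ∑ n ∈ (Icc 1 N).filter (fun n => (M + n) / R = q), f n := by
  rw [Finset.sum_fiberwise_of_maps_to]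
  intro n hn
  rw [mem_Icc] at hn
  rw [mem_range]
  have : (M + n) / R ≤ (M + N) / R := Nat.div_le_div_right (by omega)
  omega

/-- one block is an interval of places. -/
lemma block (M R N q : ℕ) (hR : 0 < R) (f : ℕ → ℝ) :
    ∑ n ∈ (Icc 1 N).filter (fun n => (M + n) / R = q), f n =
      ∑ i ∈ Ico (M + 1 - R * q) (min R (M + N + 1 - R * q)), f (R * q + i - M) := by
  refine Finset.sum_bij' (fun n _ => M + n - R * q) (fun i _ => R * q + i - M) ?_ ?_ ?_ ?_ ?_
  · intro n hn
    rw [mem_filter, mem_Icc] at hn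
    obtain ⟨⟨h1, h2⟩, h3⟩ := hn
    have h4 := Nat.div_add_mod (M + n) R
    rw [h3] at h4
    have h5 := Nat.mod_lt (M + n) hR
    rw [mem_Ico, lt_min_iff]
    refine ⟨by omega, by omega, by omega⟩
  · intro i hi
    rw [mem_Ico, lt_min_iff] at hi
    obtain ⟨h1, h2, h3⟩ := hi
    have h6 : M + (R * q + i - M) = i + R * q := by omega
    rw [mem_filter, mem_Icc]
    refine ⟨⟨by omega, by omega⟩, ?_⟩
    rw [h6, Nat.add_mul_div_left _ _ hR, Nat.div_eq_of_lt h2, zero_add]
  · intro n hn
    rw [mem_filter, mem_Icc] at hn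
    obtain ⟨⟨h1, h2⟩, h3⟩ := hn
    have h4 := Nat.div_add_mod (M + n) R
    rw [h3] at h4
    show R * q + (M + n - R * q) - M = n
    omega
  · intro i hi
    rw [mem_Ico, lt_min_iff] at hi
    obtain ⟨h1, h2, h3⟩ := hi
    show M + (R * q + i - M) - R * q = i
    omega
  · intro n hn
    rw [mem_filter, mem_Icc] at hn
    obtain ⟨⟨h1, h2⟩, h3⟩ := hn
    have h4 := Nat.div_add_mod (M + n) R
    rw [h3] at h4
    show f n = f (R * q + (M + n - R * q) - M)
    congr 1
    omega

theorem t_SUM (hPHS : S_PHS) (hTHE : S_THE) : S_SUM := by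
  intro s V m _ hs x hx l k N u hlk hu
  obtain ⟨hlt, hadd, -, -, -, -⟩ := hPHS
  set R := P s (k + 1) with hRdef
  have hR : 0 < R := by
    rw [hRdef, P]
    positivity
  set M := ph (s (k + 1)) x.2 with hMdef
  have hM : M < R := hlt _ _
  set F : ℕ → ℝ := fun n => (Th s l ((⇑TB)^[n] x) -
    E s V m k l (ph (s k) (x.2 + (n : ℤ_[2])))) * u n with hF
  have hk0 : (0 : ℝ) < (k : ℝ) + 1 := by positivity
  have hblock : ∀ q : ℕ,
      |∑ n ∈ (Icc 1 N).filter (fun n => (M + n) / R = q), F n| ≤ 1 / ((k : ℝ) + 1) * R := by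
    intro q
    rcases ((Icc 1 N).filter (fun n => (M + n) / R = q)).eq_empty_or_nonempty with he | ⟨n₀, hn₀⟩
    · rw [he, sum_empty, abs_zero]
      positivity
    · rw [mem_filter, mem_Icc] at hn₀
      obtain ⟨⟨h1, h2⟩, h3⟩ := hn₀
      have h4 := Nat.div_add_mod (M + n₀) R
      rw [h3] at h4
      have h5 := Nat.mod_lt (M + n₀) hR
      set b : ℤ := (R * q : ℕ) - (M : ℤ) with hb
      have hph : ph (s (k + 1)) (x.2 + (b : ℤ_[2])) = 0 := by
        have h6 := hadd (s (k + 1)) x.2 b
        have h7 : ((ph (s (k + 1)) x.2 : ℤ) + b) = (R : ℤ) * q := by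
          rw [hb, ← hMdef]
          push_cast
          ring
        rw [h7, hRdef, P] at h6
        push_cast at h6
        rw [Int.mul_emod_right] at h6
        exact_mod_cast h6
      have hgood := hx k b hph
      rw [block M R N q hR]
      have hterm : ∀ i ∈ Ico (M + 1 - R * q) (min R (M + N + 1 - R * q)),
          F (R * q + i - M) = (ev s l (fromZ b x.1) i - E s V m k l (i % P s k)) * u (b + i) := by
        intro i hi
        rw [mem_Ico, lt_min_iff] at hi
        obtain ⟨g1, g2, g3⟩ := hi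
        have hn : ((R * q + i - M : ℕ) : ℤ) = b + i := by
          rw [hb, Nat.cast_sub (by omega)]
          push_cast
          ring
        have e1 := (hTHE s hs l (k + 1) (R * q + i - M) i b x (by omega) hn hph).1
        have e2 := (hTHE s hs k (k + 1) (R * q + i - M) i b x (by omega) hn hph).2
        have e3 : (((R * q + i - M : ℕ) : ℤ) : ℤ_[2]) = ((R * q + i - M : ℕ) : ℤ_[2]) := by
          rw [Int.cast_natCast]
        rw [hF]
        simp only
        rw [e1]
        have e4 : ph (s k) (x.2 + ((R * q + i - M : ℕ) : ℤ_[2])) = i % P s k := by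
          rw [← e2]
          try rfl
        rw [e4, hn]
      rw [Finset.sum_congr rfl hterm]
      have hv := hu b (by rw [hb]; push_cast; omega) (by rw [hb]; push_cast; omega)
      have := hgood l hlk (M + 1 - R * q) (min R (M + N + 1 - R * q))
        (by rw [le_min_iff]; constructor <;> omega) (min_le_left _ _)
        (fun i : ℕ => u (b + i)) hv
      exact this
  have hcount : (((M + N) / R + 1 : ℕ) : ℝ) * R ≤ N + 2 * R := by
    have h1 : (M + N) / R * R ≤ M + N := Nat.div_mul_le_self _ _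
    have h2 : ((M + N) / R + 1) * R ≤ N + 2 * R := by
      rw [add_mul, one_mul]
      omega
    exact_mod_cast h2
  show |∑ n ∈ Icc 1 N, F n| ≤ _
  rw [regroup M R N hR F]
  calc |∑ q ∈ range ((M + N) / R + 1), ∑ n ∈ (Icc 1 N).filter (fun n => (M + n) / R = q), F n|
      ≤ ∑ q ∈ range ((M + N) / R + 1),
          |∑ n ∈ (Icc 1 N).filter (fun n => (M + n) / R = q), F n| := abs_sum_le_sum_abs _ _
    _ ≤ ∑ q ∈ range ((M + N) / R + 1), 1 / ((k : ℝ) + 1) * R := sum_le_sum fun q _ => hblock q
    _ = (((M + N) / R + 1 : ℕ) : ℝ) * R / ((k : ℝ) + 1) := by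
        rw [sum_const, card_range, nsmul_eq_mul]
        ring
    _ ≤ (N + 2 * R) / ((k : ℝ) + 1) := div_le_div_of_nonneg_right hcount hk0.le

end Pool.Agent.Helper48.MB
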